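import Mathlib

/-!
# The variety of integrals is never generated by an integral of a nontrivial finite group

If `H' ≅ G` is finite then some power `e > 0` kills the action of `H` on `H'`, so that `H`
satisfies the law `[[x^e, y^e], z^e] = 1`. If `G` is nontrivial and `p` is a prime divisor of its
order, then the group of affine maps of an infinite field of characteristic `p` has a derived
subgroup which is elementary abelian of exponent `p`, hence belongs to the variety generated by
`G`, and violates all these laws.
-/

namespace Pool.Agent.Results.MP_4ce577_al.OnlyTrivial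

universe u

open scoped commutatorElement

/-- `w = 1` is a law of the group `G` (`w` is a word in countably many letters). -/
def IsLaw (G : Type*) [Group G] (w : FreeGroup ℕ) : Prop :=
  ∀ f : ℕ → G, FreeGroup.lift f w = 1

/-- `K` belongs to the variety `Var(G)` generated by `G`: `K` satisfies all laws of `G`. -/
def InVar (G : Type*) [Group G] (K : Type*) [Group K] : Prop :=
  ∀ w : FreeGroup ℕ, IsLaw G w → IsLaw K w

/-- `H` is an integral of `G`: the derived subgroup of `H` is isomorphic to `G`. -/
def IsIntegralOf (H : Type*) [Group H] (G : Type*) [Group G] : Prop :=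
  Nonempty (commutator H ≃* G)

/-- `Var(H) = W`, where `W` is the class of all groups `K` whose derived subgroup lies in
`Var(G)` (all groups in the universe `u`). -/
def GeneratesIntegrals (H : Type u) [Group H] (G : Type u) [Group G] : Prop :=
  ∀ (K : Type u) [Group K], InVar H K ↔ InVar G (commutator K)

/-! ### The law of a group with finite derived subgroup -/

/-- The word `[[x₀^e, x₁^e], x₂^e]`. -/
def word (e : ℕ) : FreeGroup ℕ :=
  ⁅⁅(FreeGroup.of 0) ^ e, (FreeGroup.of 1) ^ e⁆, (FreeGroup.of 2) ^ e⁆

theorem lift_word {K : Type*} [Group K] (e : ℕ) (f : ℕ → K) :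
    FreeGroup.lift f (word e) = ⁅⁅(f 0) ^ e, (f 1) ^ e⁆, (f 2) ^ e⁆ := by
  simp [word, map_commutatorElement]

theorem exists_word_law (H : Type*) [Group H] [Finite (commutator H)] :
    ∃ e : ℕ, 0 < e ∧ IsLaw H (word e) := by
  have : Finite (MulAut (commutator H)) := by
    exact Finite.of_injective (fun f : MulAut (commutator H) => (f : commutator H → commutator H))
      DFunLike.coe_injective
  refine ⟨Nat.card (MulAut (commutator H)), Nat.card_pos, fun f => ?_⟩
  rw [lift_word, commutatorElement_eq_one_iff_mul_comm]
  have hmem : ⁅f 0 ^ Nat.card (MulAut (commutator H)), f 1 ^ Nat.card (MulAut (commutator H))⁆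
      ∈ commutator H := Subgroup.commutator_mem_commutator trivial trivial
  have h1 : (MulAut.conjNormal (H := commutator H) (f 2)) ^ Nat.card (MulAut (commutator H)) = 1 :=
    pow_card_eq_one'
  rw [← map_pow] at h1
  have h2 := congrArg (fun φ : MulAut (commutator H) => ((φ ⟨_, hmem⟩ : commutator H) : H)) h1
  simp only [MulAut.conjNormal_apply, MulAut.one_apply] at h2
  rw [mul_inv_eq_iff_eq_mul] at h2
  exact h2.symm

/-! ### Affine groups -/

/-- The affine maps `x ↦ u x + t` of a field. -/
@[ext] structure Aff (k : Type u) [Field k] where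
  /-- the linear part -/
  u : kˣ
  /-- the translation part -/
  t : k

variable {k : Type u} [Field k]

instance : Mul (Aff k) := ⟨fun a b => ⟨a.u * b.u, a.t + a.u * b.t⟩⟩
instance : One (Aff k) := ⟨⟨1, 0⟩⟩
instance : Inv (Aff k) := ⟨fun a => ⟨a.u⁻¹, -((a.u⁻¹ : kˣ) * a.t)⟩⟩

theorem mul_def (a b : Aff k) : a * b = ⟨a.u * b.u, a.t + a.u * b.t⟩ := rfl
theorem one_def : (1 : Aff k) = ⟨1, 0⟩ := rfl
theorem inv_def (a : Aff k) : a⁻¹ = ⟨a.u⁻¹, -((a.u⁻¹ : kˣ) * a.t)⟩ := rfl

instance : Group (Aff k) :=
  Group.ofLeftAxioms
    (by
      intro a b c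
      ext
      · simp [mul_def, mul_assoc]
      · simp only [mul_def, Units.val_mul]; ring)
    (by
      intro a
      ext <;> simp [mul_def, one_def])
    (by
      intro a
      ext <;> simp [mul_def, one_def, inv_def])

/-- The linear part. -/
def lin : Aff k →* kˣ where
  toFun a := a.u
  map_one' := rfl
  map_mul' _ _ := rfl

/-- The translations. -/
def transl : Multiplicative k →* Aff k where
  toFun t := ⟨1, t.toAdd⟩
  map_one' := rfl
  map_mul' a b := by
    ext <;> simp [mul_def]

theorem eq_transl (x : commutator (Aff k)) : (x : Aff k) = transl (Multiplicative.ofAdd (x : Aff k).t) := by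
  have h : (x : Aff k) ∈ (lin (k := k)).ker := Abelianization.commutator_subset_ker lin x.2
  have h' : (x : Aff k).u = 1 := h
  ext
  · rw [h']; rfl
  · rfl

theorem law_commutator {w : FreeGroup ℕ} (hw : IsLaw (Multiplicative k) w) :
    IsLaw (commutator (Aff k)) w := by
  intro f
  apply Subtype.coe_injective
  have h1 : ((FreeGroup.lift f w : commutator (Aff k)) : Aff k)
      = FreeGroup.lift (fun i => (f i : Aff k)) w := by
    have : (commutator (Aff k)).subtype.comp (FreeGroup.lift f)
        = FreeGroup.lift (fun i => (f i : Aff k)) := by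
      ext i : 1; simp
    exact DFunLike.congr_fun this w
  have h2 : FreeGroup.lift (fun i => (f i : Aff k)) w
      = transl (FreeGroup.lift (fun i => Multiplicative.ofAdd (f i : Aff k).t) w) := by
    have : FreeGroup.lift (fun i => (f i : Aff k))
        = transl.comp (FreeGroup.lift (fun i => Multiplicative.ofAdd (f i : Aff k).t)) := by
      ext i : 1
      simp only [FreeGroup.lift_apply_of, MonoidHom.comp_apply]
      exact eq_transl (f i)
    exact DFunLike.congr_fun this w
  show ((FreeGroup.lift f w : commutator (Aff k)) : Aff k) = ((1 : commutator (Aff k)) : Aff k)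
  rw [h1, h2, hw]
  simp

theorem not_law_word [Infinite k] {e : ℕ} (he : 0 < e) : ¬ IsLaw (Aff k) (word e) := by
  intro hlaw
  -- a unit whose `e`-th power is not one
  obtain ⟨v, hv⟩ : ∃ v : kˣ, v ^ e ≠ 1 := by
    by_contra hcon
    push Not at hcon
    have hroot : ∀ x : k, (Polynomial.X ^ (e + 1) - Polynomial.X : Polynomial k).IsRoot x := by
      intro x
      by_cases hx : x = 0
      · subst hx; simp
      · have := congrArg (fun y : kˣ => (y : k)) (hcon (Units.mk0 x hx))
        simp only [Units.val_pow_eq_pow_val, Units.val_mk0, Units.val_one] at this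
        simp [pow_succ, this]
    have hzero : (Polynomial.X ^ (e + 1) - Polynomial.X : Polynomial k) = 0 :=
      Polynomial.eq_zero_of_infinite_isRoot _ (by
        have : {x : k | (Polynomial.X ^ (e + 1) - Polynomial.X : Polynomial k).IsRoot x}
            = Set.univ := Set.eq_univ_of_forall hroot
        rw [this]
        exact Set.infinite_univ)
    have := congrArg (fun P : Polynomial k => P.coeff (e + 1)) hzero
    simp [Polynomial.coeff_X, he.ne'] at this
  set a : kˣ := v ^ e with ha
  -- the two affine maps
  let y : Aff k := ⟨v, 0⟩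
  let c : Aff k := ⟨1, 1⟩
  have hy : y ^ e = ⟨a, 0⟩ := by
    have : ∀ n : ℕ, y ^ n = ⟨v ^ n, 0⟩ := by
      intro n
      induction n with
      | zero => simp [one_def]
      | succ n ih => rw [pow_succ, ih, mul_def, pow_succ]; simp [y]
    exact this e
  have hx : (c * y * c⁻¹) ^ e = ⟨a, 1 - a⟩ := by
    rw [conj_pow, hy]
    ext <;> simp [c, mul_def, inv_def]
    ring
  have h := hlaw (fun i => if i = 0 then c * y * c⁻¹ else y)
  rw [lift_word] at h
  have h' : ⁅⁅(c * y * c⁻¹) ^ e, y ^ e⁆, y ^ e⁆ = 1 := h
  rw [hx, hy] at h'
  have h2 := congrArg Aff.t h'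
  simp only [commutatorElement_def, mul_def, inv_def, one_def] at h2
  have ha1 : (a : k) ≠ 1 := by
    intro hcontra
    exact hv (Units.ext (by simpa using hcontra))
  have h3 : ((1 : k) - a) ^ 3 = 0 := by
    have ha0 : (a : k) ≠ 0 := a.ne_zero
    simp only [Units.val_mul, Units.val_inv_eq_inv_val] at h2
    field_simp at h2
    linear_combination h2
  exact ha1 (by
    have := pow_eq_zero_iff (n := 3) (by norm_num) |>.1 h3
    exact (sub_eq_zero.1 this).symm)

/-! ### Laws of elementary abelian groups -/

theorem law_of_injective {A B : Type*} [Group A] [Group B] (ψ : A →* B)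
    (hψ : Function.Injective ψ) {w : FreeGroup ℕ} (hw : IsLaw B w) : IsLaw A w := by
  intro f
  apply hψ
  have : ψ.comp (FreeGroup.lift f) = FreeGroup.lift (fun i => ψ (f i)) := by
    ext i : 1; simp
  have h := DFunLike.congr_fun this w
  rw [MonoidHom.comp_apply] at h
  rw [h, hw, map_one]

theorem law_zmod {G : Type*} [Group G] {p : ℕ} {g : G} (hg : orderOf g = p)
    {w : FreeGroup ℕ} (hw : IsLaw G w) : IsLaw (Multiplicative (ZMod p)) w := by
  have h0 : (zmultiplesHom (Additive G) (Additive.ofMul g)) (p : ℤ) = 0 := by
    rw [zmultiplesHom_apply, natCast_zsmul, ← ofMul_pow, ← hg, pow_orderOf_eq_one, ofMul_one]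
  refine law_of_injective
    (AddMonoidHom.toMultiplicativeLeft (ZMod.lift p ⟨zmultiplesHom (Additive G) (Additive.ofMul g), h0⟩)) ?_ hw
  rw [injective_iff_map_eq_one]
  intro x hx
  obtain ⟨n, hn⟩ := ZMod.intCast_surjective x.toAdd
  have hx' : (ZMod.lift p ⟨zmultiplesHom (Additive G) (Additive.ofMul g), h0⟩) x.toAdd = 0 := hx
  rw [← hn, ZMod.lift_coe] at hx'
  have h1 : g ^ n = 1 := hx'
  rw [← orderOf_dvd_iff_zpow_eq_one, hg] at h1
  have : x.toAdd = 0 := by
    rw [← hn]
    exact (ZMod.intCast_zmod_eq_zero_iff_dvd n p).2 h1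
  exact this

theorem law_field {G : Type*} [Group G] {p : ℕ} [Fact p.Prime] {g : G} (hg : orderOf g = p)
    [CharP k p] {w : FreeGroup ℕ} (hw : IsLaw G w) : IsLaw (Multiplicative k) w := by
  letI := ZMod.algebra k p
  intro f
  have key : (FreeGroup.lift f w).toAdd = 0 := by
    rw [← Module.forall_dual_apply_eq_zero_iff (ZMod p)]
    intro φ
    have : (AddMonoidHom.toMultiplicative (φ.toAddMonoidHom)).comp (FreeGroup.lift f)
        = FreeGroup.lift (fun i => Multiplicative.ofAdd (φ (f i).toAdd)) := by
      ext i : 1
      simp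
    have h := DFunLike.congr_fun this w
    rw [law_zmod hg hw] at h
    exact h
  exact key

theorem law_comm {K : Type*} [CommGroup K] {w : FreeGroup ℕ} (hw : IsLaw (Multiplicative ℤ) w) :
    IsLaw K w := by
  let a : FreeGroup ℕ →* Multiplicative (FreeAbelianGroup ℕ) :=
    FreeGroup.lift (fun i => Multiplicative.ofAdd (FreeAbelianGroup.of i))
  have ha : (a w).toAdd = 0 := by
    apply (FreeAbelianGroup.equivFinsupp ℕ).injective
    rw [map_zero]
    ext x
    have : (AddMonoidHom.toMultiplicative (FreeAbelianGroup.coeff x)).comp a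
        = FreeGroup.lift (fun i => Multiplicative.ofAdd
            (FreeAbelianGroup.coeff x (FreeAbelianGroup.of i))) := by
      ext i : 1
      simp [a]
    have h := DFunLike.congr_fun this w
    rw [hw] at h
    exact h
  intro f
  have : FreeGroup.lift f = (AddMonoidHom.toMultiplicativeLeft
      (FreeAbelianGroup.lift (fun i => Additive.ofMul (f i)))).comp a := by
    ext i : 1
    simp [a]
  rw [this, MonoidHom.comp_apply]
  show (FreeAbelianGroup.lift (fun i => Additive.ofMul (f i)) (a w).toAdd).toMul = 1
  rw [ha, map_zero]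
  rfl

/-! ### The main result -/

theorem not_generates {G : Type u} [Group G] [Finite G] [Nontrivial G] {H : Type u} [Group H]
    (hH : IsIntegralOf H G) : ¬ GeneratesIntegrals H G := by
  intro hgen
  obtain ⟨i⟩ := hH
  have : Finite (commutator H) := Finite.of_equiv G i.symm.toEquiv
  obtain ⟨e, he, hlaw⟩ := exists_word_law H
  have hcard : Nat.card G ≠ 1 := by
    have := Finite.one_lt_card (α := G)
    omega
  obtain ⟨p, hp, hpd⟩ := Nat.exists_prime_and_dvd hcard
  have : Fact p.Prime := ⟨hp⟩
  obtain ⟨g, hg⟩ := exists_prime_orderOf_dvd_card' p hpd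
  let k : Type u := ULift.{u} (AlgebraicClosure (ZMod p))
  have : CharP (AlgebraicClosure (ZMod p)) p := inferInstance
  have : CharP k p := inferInstanceAs (CharP (ULift.{u} (AlgebraicClosure (ZMod p))) p)
  have : Infinite k := inferInstanceAs (Infinite (ULift.{u} (AlgebraicClosure (ZMod p))))
  have hK : InVar G (commutator (Aff k)) := fun w hw => law_commutator (law_field hg hw)
  exact not_law_word (k := k) he ((hgen (Aff k)).2 hK _ hlaw)

theorem trivial_generates (G : Type u) [Group G] [Subsingleton G] :
    ∃ (H : Type u) (_ : Group H), IsIntegralOf H G ∧ GeneratesIntegrals H G := by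
  refine ⟨ULift.{u} (Multiplicative ℤ), inferInstance, ?_, ?_⟩
  · have h : commutator (ULift.{u} (Multiplicative ℤ)) = ⊥ := by
      rw [commutator_def, Subgroup.commutator_eq_bot_iff_le_centralizer]
      intro x _ y _
      exact mul_comm _ _
    have : Subsingleton (commutator (ULift.{u} (Multiplicative ℤ))) := by
      rw [h]; infer_instance
    exact ⟨{ toFun := fun _ => 1, invFun := fun _ => 1,
             left_inv := fun _ => Subsingleton.elim _ _,
             right_inv := fun _ => Subsingleton.elim _ _, map_mul' := by simp }⟩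
  · intro K _
    constructor
    · intro h
      have hcomm : ∀ x y : K, x * y = y * x := by
        intro x y
        have h1 := h ⁅FreeGroup.of 0, FreeGroup.of 1⁆ (fun f => by
          rw [map_commutatorElement, commutatorElement_eq_one_iff_mul_comm, mul_comm])
        have h2 := h1 (fun i => if i = 0 then x else y)
        rw [map_commutatorElement, commutatorElement_eq_one_iff_mul_comm] at h2
        simpa using h2
      have hbot : commutator K = ⊥ := by
        rw [commutator_def, Subgroup.commutator_eq_bot_iff_le_centralizer]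
        intro x _ y _
        exact hcomm y x
      intro w _ f
      have : Subsingleton (commutator K) := by rw [hbot]; infer_instance
      exact Subsingleton.elim _ _
    · intro h
      have hlaw := h (FreeGroup.of 0) (fun f => Subsingleton.elim _ _)
      have htriv : ∀ x : commutator K, x = 1 := by
        intro x
        simpa using hlaw (fun _ => x)
      have hcomm : ∀ x y : K, x * y = y * x := by
        intro x y
        have h1 := htriv ⟨⁅x, y⁆, Subgroup.commutator_mem_commutator trivial trivial⟩
        have h2 := congrArg Subtype.val h1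
        exact commutatorElement_eq_one_iff_mul_comm.1 h2
      let _ : CommGroup K := { (inferInstance : Group K) with mul_comm := hcomm }
      intro w hw
      have hw' : IsLaw (Multiplicative ℤ) w :=
        law_of_injective (MulEquiv.ulift.symm.toMonoidHom : Multiplicative ℤ →* ULift.{u} (Multiplicative ℤ))
          (MulEquiv.injective _) hw
      exact law_comm hw'

/-- Let `G` be a finite group, `V = Var(G)` and `W` the class of all groups whose derived subgroup
lies in `V`. Some integral `H` of `G` satisfies `Var(H) = W` if and only if `G` is trivial. Here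
nontrivial finite integrable groups exist. -/
theorem result :
    (∀ (G : Type u) [Group G] [Finite G],
      (∃ (H : Type u) (_ : Group H), IsIntegralOf H G ∧ GeneratesIntegrals H G) ↔
        Subsingleton G) ∧
    (∃ (G : Type u) (_ : Group G), Finite G ∧ Nontrivial G ∧
      ∃ (H : Type u) (_ : Group H), IsIntegralOf H G) := by
  refine ⟨fun G _ _ => ⟨?_, fun h => trivial_generates G⟩, ?_⟩
  · rintro ⟨H, _, hH, hgen⟩
    by_contra hns
    have : Nontrivial G := not_subsingleton_iff_nontrivial.1 hns
    exact not_generates hH hgen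
  · refine ⟨commutator (ULift.{u} (Equiv.Perm (Fin 3))), inferInstance, inferInstance, ?_,
      ULift.{u} (Equiv.Perm (Fin 3)), inferInstance, ⟨MulEquiv.refl _⟩⟩
    refine ⟨⟨1, ⟨⁅ULift.up (Equiv.swap 0 1), ULift.up (Equiv.swap 1 2)⁆,
      Subgroup.commutator_mem_commutator trivial trivial⟩, fun h => ?_⟩⟩
    have h2 := congrArg (fun x : commutator (ULift.{u} (Equiv.Perm (Fin 3))) => x.1.down) h
    revert h2
    simp only [commutatorElement_def]
    show ¬ ((1 : Equiv.Perm (Fin 3)) = Equiv.swap 0 1 * Equiv.swap 1 2 * (Equiv.swap 0 1)⁻¹ * (Equiv.swap 1 2)⁻¹)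
    decide

end Pool.Agent.Results.MP_4ce577_al.OnlyTrivial
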